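import Pool.Agent.H11.NS.Targets

/-!
# Module CL of the board ns_modules

Induction on the order of the kernel (an `ℓ`-group): three-elements over disjoint three-cycles
commute.
-/

set_option autoImplicit false
set_option linter.unusedVariables false

open Equiv (Perm)

namespace Pool.Agent.H18.NSCL

open Pool.Agent.H11.NS

/-- central elements of exponent `ℓ` in a normal subgroup, as a subgroup of the group -/
def omegaCenter {H : Type} [Group H] (K : Subgroup H) (ℓ : ℕ) : Subgroup H where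
  carrier := {z | z ∈ K ∧ z ^ ℓ = 1 ∧ ∀ x ∈ K, x * z = z * x}
  mul_mem' := by
    rintro a b ⟨ha, ha', ha''⟩ ⟨hb, hb', hb''⟩
    refine ⟨K.mul_mem ha hb, ?_, fun x hx => ?_⟩
    · have hc : Commute a b := (ha'' b hb).symm
      rw [hc.mul_pow, ha', hb', mul_one]
    · rw [← mul_assoc, ha'' x hx, mul_assoc, hb'' x hx, mul_assoc]
  one_mem' := ⟨K.one_mem, one_pow _, fun x _ => by simp⟩
  inv_mem' := by
    rintro a ⟨ha, ha', ha''⟩
    refine ⟨K.inv_mem ha, by rw [inv_pow, ha', inv_one], fun x hx => ?_⟩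
    have hc : Commute x a := ha'' x hx
    exact hc.inv_right

theorem omegaCenter_mem {H : Type} [Group H] (K : Subgroup H) (ℓ : ℕ) (z : H) :
    z ∈ omegaCenter K ℓ ↔ z ∈ K ∧ z ^ ℓ = 1 ∧ ∀ x ∈ K, x * z = z * x := Iff.rfl

theorem omegaCenter_normal {H : Type} [Group H] (K : Subgroup H) [hK : K.Normal] (ℓ : ℕ) :
    (omegaCenter K ℓ).Normal := by
  constructor
  rintro z ⟨hz, hz', hz''⟩ g
  refine ⟨hK.conj_mem z hz g, ?_, fun x hx => ?_⟩
  · rw [conj_pow, hz', mul_one, mul_inv_cancel]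
  · have h1 := hz'' (g⁻¹ * x * g) (by simpa using hK.conj_mem x hx g⁻¹)
    have h2 : x * (g * z * g⁻¹) = g * ((g⁻¹ * x * g) * z) * g⁻¹ := by group
    rw [h2, h1]; group

theorem pf_cl : T_FP → T_OM → T_NL → T_CL1 → T_RH → T_CL := by
  intro hFP hOM hNL hCL1 hRH Ω _ _ ℓ hℓ hℓ3 H _ _
  haveI : Fact ℓ.Prime := ⟨hℓ⟩
  have hne3 : ℓ ≠ 3 := by rintro rfl; omega
  obtain ⟨h30, ω, hω, hω1⟩ := hOM ℓ hℓ3
  -- induction
  suffices h : ∀ n : ℕ, ∀ (H : Type) [Group H] [Finite H] (ψ : H →* alternatingGroup Ω),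
      Nat.card ψ.ker = n →
    Function.Surjective ψ → IsPGroup ℓ ψ.ker → ∀ a h : H, a ^ 3 = 1 → a * h = h * a →
    (∀ x ∈ ψ.ker, a * x = x * a → h * x = x * h) → 18 ≤ (ψ a : Perm Ω).support.card →
    (∀ κ < 3, 18 ≤ ((ψ h : Perm Ω) * (ψ a : Perm Ω) ^ κ).support.card) →
    ∀ t t' : H, (∃ k : ℕ, t ^ (3 ^ k) = 1) → (∃ k : ℕ, t' ^ (3 ^ k) = 1) →
    (ψ t : Perm Ω).IsThreeCycle → (ψ t' : Perm Ω).IsThreeCycle →
    Equiv.Perm.Disjoint (ψ t : Perm Ω) (ψ t' : Perm Ω) → t * t' = t' * t from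
    fun ψ => h _ H ψ rfl
  clear! H
  intro n
  induction n using Nat.strong_induction_on with
  | _ n ih =>
  intro H _ _ ψ hn hsurj hpg a h ha hah hT hsa hsh t t' ht ht' h3t h3t' hdis
  have hcommP : (ψ (t * t' * t⁻¹ * t'⁻¹)) = 1 := by
    have h1 : ψ t * ψ t' = ψ t' * ψ t := by
      apply Subtype.ext
      exact hdis.commute.eq
    simp only [map_mul, map_inv]
    rw [h1]; group
  by_cases hbot : ψ.ker = ⊥
  · have h1 : t * t' * t⁻¹ * t'⁻¹ ∈ ψ.ker := hcommP
    rw [hbot, Subgroup.mem_bot] at h1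
    rw [mul_inv_eq_one, mul_inv_eq_iff_eq_mul] at h1
    exact h1
  -- the subgroup V
  let V := omegaCenter ψ.ker ℓ
  haveI hVn : V.Normal := omegaCenter_normal ψ.ker ℓ
  have hVker : V ≤ ψ.ker := fun z hz => hz.1
  have hVab : ∀ x ∈ V, ∀ y ∈ V, x * y = y * x := fun x hx y hy => hy.2.2 x hx.1
  have hVexp : ∀ x ∈ V, x ^ ℓ = 1 := fun x hx => hx.2.1
  have hVc : ∀ x ∈ ψ.ker, ∀ v ∈ V, x * v * x⁻¹ = v := by
    intro x hx v hv
    rw [hv.2.2 x hx, mul_inv_cancel_right]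
  have hVbot : V ≠ ⊥ := by
    haveI : Nontrivial ψ.ker := (Subgroup.nontrivial_iff_ne_bot _).2 hbot
    have hcn := hpg.center_nontrivial
    have hcp : IsPGroup ℓ (Subgroup.center ψ.ker) := hpg.to_subgroup _
    obtain ⟨m, hm⟩ := (IsPGroup.iff_card.1 hcp)
    have hm0 : m ≠ 0 := by
      rintro rfl
      rw [pow_zero] at hm
      exact absurd hm (ne_of_gt (Finite.one_lt_card))
    have hdvd : ℓ ∣ Nat.card (Subgroup.center ψ.ker) := by
      rw [hm]; exact dvd_pow_self _ hm0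
    obtain ⟨z, hz⟩ := exists_prime_orderOf_dvd_card' (G := Subgroup.center ψ.ker) ℓ hdvd
    intro hV
    have hz1 : ((z : ψ.ker) : H) ∈ V := by
      refine ⟨(z : ψ.ker).2, ?_, fun x hx => ?_⟩
      · have h2 : z ^ ℓ = 1 := by rw [← hz]; exact pow_orderOf_eq_one z
        have h3 := congrArg (fun w : Subgroup.center ψ.ker => ((w : ψ.ker) : H)) h2
        simpa using h3
      · have h2 := (Subgroup.mem_center_iff.1 z.2) ⟨x, hx⟩
        exact congrArg Subtype.val h2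
    rw [hV, Subgroup.mem_bot] at hz1
    have hz2 : z = 1 := by
      apply Subtype.ext; apply Subtype.ext; exact hz1
    rw [hz2, orderOf_one] at hz
    exact hℓ.one_lt.ne hz
  -- quotient
  have hcardV : ¬ 3 ∣ Nat.card V := by
    have hVp : IsPGroup ℓ V := by
      intro v
      refine ⟨1, ?_⟩
      rw [pow_one]
      exact Subtype.ext (hVexp v v.2)
    obtain ⟨m, hm⟩ := (IsPGroup.iff_card.1 hVp)
    rw [hm]
    intro h3
    have := (Nat.prime_three.dvd_of_dvd_pow h3)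
    rw [Nat.prime_dvd_prime_iff_eq Nat.prime_three hℓ] at this
    exact hne3 this.symm
  let ψ' : H ⧸ V →* alternatingGroup Ω := QuotientGroup.lift V ψ hVker
  have hψ' : ∀ y : H, ψ' (y : H ⧸ V) = ψ y := fun y => rfl
  have hker' : ψ'.ker = (ψ.ker).map (QuotientGroup.mk' V) := by
    ext x
    constructor
    · intro hx
      obtain ⟨y, rfl⟩ := QuotientGroup.mk_surjective x
      exact ⟨y, hx, rfl⟩
    · rintro ⟨y, hy, rfl⟩
      exact hy
  have hcomm1 : t * t' * t⁻¹ * t'⁻¹ ∈ V := by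
    have hlt : Nat.card ψ'.ker < n := by
      rw [hker', ← hn]
      -- the map is surjective and not injective
      let f : ψ.ker → (ψ.ker).map (QuotientGroup.mk' V) :=
        fun x => ⟨QuotientGroup.mk' V x, x, x.2, rfl⟩
      have hfs : Function.Surjective f := by
        rintro ⟨_, y, hy, rfl⟩
        exact ⟨⟨y, hy⟩, rfl⟩
      refine lt_of_le_of_ne (Nat.card_le_card_of_surjective f hfs) ?_
      intro heq
      have hfi : Function.Injective f :=
        ((Nat.bijective_iff_surjective_and_card f).2 ⟨hfs, heq.symm⟩).1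
      apply hVbot
      rw [eq_bot_iff]
      intro v hv
      have h1 : f ⟨v, hVker hv⟩ = f 1 := by
        apply Subtype.ext
        show (QuotientGroup.mk' V) v = (QuotientGroup.mk' V) ((1 : ψ.ker) : H)
        rw [Subgroup.coe_one, map_one]
        exact (QuotientGroup.eq_one_iff v).2 hv
      have h2 := congrArg Subtype.val (hfi h1)
      rw [Subgroup.mem_bot]
      exact h2
    have hpg' : IsPGroup ℓ ψ'.ker := by
      rw [hker']
      exact hpg.map _
    have h3 := ih _ hlt (H ⧸ V) ψ' rfl (fun y => by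
        obtain ⟨x, hx⟩ := hsurj y
        exact ⟨(x : H ⧸ V), hx⟩) hpg' (a : H ⧸ V) (h : H ⧸ V)
      (by rw [← QuotientGroup.mk_pow, ha]; rfl)
      (by rw [← QuotientGroup.mk_mul, hah]; rfl)
      (by
        intro x hx hax
        rw [hker'] at hx
        obtain ⟨y, hy, rfl⟩ := hx
        have hy1 : a * y * a⁻¹ * y⁻¹ ∈ V := by
          rw [← QuotientGroup.eq_one_iff]
          have h4 : (a : H ⧸ V) * (y : H ⧸ V) = (y : H ⧸ V) * (a : H ⧸ V) := hax
          rw [QuotientGroup.mk_mul, QuotientGroup.mk_mul, QuotientGroup.mk_mul, h4,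
            QuotientGroup.mk_inv, QuotientGroup.mk_inv]
          group
        obtain ⟨k, hk, hk2⟩ := hFP H V hVn 3 Nat.prime_three hcardV a
          ⟨1, by rw [pow_one]; exact ha⟩ y hy1
        have h5 := hT (y * k) (ψ.ker.mul_mem hy (hVker hk)) hk2
        have h6 : ((y * k : H) : H ⧸ V) = (y : H ⧸ V) := by
          rw [QuotientGroup.mk_mul, (QuotientGroup.eq_one_iff k).2 hk, mul_one]
        show (h : H ⧸ V) * (y : H ⧸ V) = (y : H ⧸ V) * (h : H ⧸ V)
        rw [← h6, ← QuotientGroup.mk_mul, h5, QuotientGroup.mk_mul])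
      hsa hsh (t : H ⧸ V) (t' : H ⧸ V)
      (ht.imp fun k hk => by rw [← QuotientGroup.mk_pow, hk]; rfl)
      (ht'.imp fun k hk => by rw [← QuotientGroup.mk_pow, hk]; rfl)
      h3t h3t' hdis
    rw [← QuotientGroup.eq_one_iff, QuotientGroup.mk_mul, QuotientGroup.mk_mul,
      QuotientGroup.mk_mul, h3, QuotientGroup.mk_inv, QuotientGroup.mk_inv]
    group
  -- the module
  obtain ⟨W, _, _, ρ, f, hf, hρ⟩ := hRH H (alternatingGroup Ω) ψ hsurj V hVn ℓ hVab hVexp hVc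
  have hf1 : f 1 = 0 := by
    have := hf 1 1
    rw [mul_one] at this
    exact (left_eq_add.mp this)
  have hkey := hNL Ω (ZMod ℓ) W ω hω hω1 h30 ρ (ψ a) (ψ h)
    (by rw [← map_pow, ha, map_one]) (by rw [← map_mul, hah, map_mul])
    (by
      intro w hw
      obtain ⟨v, rfl⟩ := f.surjective w
      rw [hρ] at hw
      have h1 := congrArg Subtype.val (f.injective hw)
      have h2 : a * (v : H) = (v : H) * a := by
        have h1' : a * (v : H) * a⁻¹ = (v : H) := h1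
        rw [mul_inv_eq_iff_eq_mul] at h1'
        exact h1'
      have h3 := hT v (hVker v.2) h2
      rw [hρ]
      congr 1
      apply Subtype.ext
      show h * (v : H) * h⁻¹ = (v : H)
      rw [h3, mul_inv_cancel_right])
    hsa hsh (ψ t) (ψ t') h3t h3t' hdis
  refine hCL1 H V hVn ℓ hℓ hne3 hVab hVexp t t' ht ht' hcomm1 ?_
  intro v hv
  have hk := hkey (f ⟨v, hv⟩)
  rw [hρ, hρ, hρ] at hk
  -- translate
  set v1 : V := ⟨t' * v * t'⁻¹, hVn.conj_mem v hv t'⟩ with hv1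
  set v2 : V := ⟨t * v * t⁻¹, hVn.conj_mem v hv t⟩ with hv2
  set v3 : V := ⟨t * (v1 : H) * t⁻¹, hVn.conj_mem v1 v1.2 t⟩ with hv3
  have hk2 : f (v3 * ⟨v, hv⟩) = f (v1 * v2) := by
    rw [hf, hf]
    have : f v3 - f v2 - f v1 + f ⟨v, hv⟩ = 0 := hk
    have h8 : f v3 + f ⟨v, hv⟩ = f v1 + f v2 + (f v3 - f v2 - f v1 + f ⟨v, hv⟩) := by abel
    rw [h8, this, add_zero]
  have hk3 : t * (t' * v * t'⁻¹) * t⁻¹ * v = (t' * v * t'⁻¹) * (t * v * t⁻¹) :=
    congrArg Subtype.val (f.injective hk2)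
  -- conclude
  have h9 : t * (t' * v * t'⁻¹ * v⁻¹) * t⁻¹ =
      (t * (t' * v * t'⁻¹) * t⁻¹ * v) * v⁻¹ * (t * v * t⁻¹)⁻¹ := by group
  rw [h9, hk3]
  have h10 : (t * v * t⁻¹) * v⁻¹ = v⁻¹ * (t * v * t⁻¹) :=
    hVab _ v2.2 _ (V.inv_mem hv)
  rw [mul_assoc (t' * v * t'⁻¹) (t * v * t⁻¹) v⁻¹, h10]
  group

end Pool.Agent.H18.NSCL
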