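import Pool.Agent.H11.NS.Targets

/-!
# Module F2 of the board ns_modules

If every `y` moves boundedly many points eventually and the group has no proper subgroup of
finite index, then every finite set has a conjugate commuting with it elementwise.
-/

set_option autoImplicit false
set_option linter.unusedVariables false

open Equiv (Perm)
open scoped Pointwise

namespace Pool.Agent.H18.NSF2

open Pool.Agent.H11.NS

theorem pf_f2 : T_F2 := by
  intro G _ hfi I U n act hmul hinj hsup E
  classical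
  -- the identity and inverses
  have h1 : ∀ᶠ i in (U : Filter I), act i 1 = 1 := by
    filter_upwards [hmul 1 1] with i hi
    rw [mul_one] at hi
    exact (mul_eq_left.mp hi.symm)
  have hinv : ∀ y : G, ∀ᶠ i in (U : Filter I), act i y⁻¹ = (act i y)⁻¹ := by
    intro y
    filter_upwards [hmul y⁻¹ y, h1] with i hi h1i
    rw [inv_mul_cancel, h1i] at hi
    exact eq_inv_of_mul_eq_one_left hi.symm
  by_cases hE : ∃ u₀ ∈ E, u₀ ≠ 1
  swap
  · push Not at hE
    exact ⟨1, fun u hu v hv => by rw [hE u hu, hE v hv]; simp⟩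
  obtain ⟨u₀, hu₀, hu₀1⟩ := hE
  -- the supports
  let Δ : ∀ i, Finset (Fin (n i)) := fun i => E.biUnion (fun u => (act i u).support)
  choose B hB using hsup
  have hΔc : ∀ᶠ i in (U : Filter I), (Δ i).card ≤ ∑ u ∈ E, B u := by
    have h : ∀ᶠ i in (U : Filter I), ∀ u ∈ E, (act i u).support.card ≤ B u :=
      (Filter.eventually_all_finset E).2 (fun u _ => hB u)
    filter_upwards [h] with i hi
    exact Finset.card_biUnion_le.trans (Finset.sum_le_sum hi)
  have hΔne : ∀ᶠ i in (U : Filter I), (Δ i).Nonempty := by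
    filter_upwards [hinj u₀ hu₀1] with i hi
    obtain ⟨x, hx⟩ : (act i u₀).support.Nonempty := by
      rw [Finset.nonempty_iff_ne_empty]
      intro h
      exact hi (Equiv.Perm.support_eq_empty_iff.1 h)
    exact ⟨x, Finset.mem_biUnion.2 ⟨u₀, hu₀, hx⟩⟩
  set D := ∑ u ∈ E, B u with hD
  -- enumeration
  have hen : ∀ i, ∃ δ : Fin D → Option (Fin (n i)),
      (Δ i).card ≤ D → (Δ i).Nonempty →
        (∀ j, ∃ x ∈ Δ i, δ j = some x) ∧ (∀ x ∈ Δ i, ∃ j, δ j = some x) := by
    intro i
    by_cases hc : (Δ i).card ≤ D ∧ (Δ i).Nonempty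
    · obtain ⟨hc, x₀, hx₀⟩ := hc
      let e := (Δ i).equivFin
      refine ⟨fun j => if hj : (j : ℕ) < (Δ i).card then some (e.symm ⟨j, hj⟩ : Fin (n i))
        else some x₀, fun _ _ => ⟨fun j => ?_, fun x hx => ?_⟩⟩
      · by_cases hj : (j : ℕ) < (Δ i).card
        · refine ⟨(e.symm ⟨j, hj⟩ : Fin (n i)), (e.symm ⟨j, hj⟩).2, ?_⟩
          simp [hj]
        · refine ⟨x₀, hx₀, ?_⟩
          simp [hj]
      · refine ⟨⟨(e ⟨x, hx⟩ : ℕ), lt_of_lt_of_le (e ⟨x, hx⟩).2 hc⟩, ?_⟩
        have h2 : ((e ⟨x, hx⟩ : Fin _) : ℕ) < (Δ i).card := (e ⟨x, hx⟩).2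
        simp [h2]
    · refine ⟨fun _ => none, fun h1 h2 => absurd ⟨h1, h2⟩ hc⟩
  choose δ hδ using hen
  let Cs : Fin D → Fin D → Set G := fun j j' =>
    {y | ∀ᶠ i in (U : Filter I), (δ i j).map (act i y) = δ i j'}
  -- stabilizers
  let St : Fin D → Subgroup G := fun j =>
    { carrier := Cs j j
      mul_mem' := by
        intro a b ha hb
        show ∀ᶠ i in (U : Filter I), (δ i j).map (act i (a * b)) = δ i j
        filter_upwards [ha, hb, hmul a b] with i h1 h2 h3
        rw [h3]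
        have : (δ i j).map (⇑(act i a * act i b)) =
            ((δ i j).map (act i b)).map (act i a) := by
          rw [Option.map_map]; rfl
        rw [this, h2, h1]
      one_mem' := by
        show ∀ᶠ i in (U : Filter I), (δ i j).map (act i 1) = δ i j
        filter_upwards [h1] with i hi
        rw [hi]
        have : (⇑(1 : Perm (Fin (n i)))) = id := rfl
        rw [this, Option.map_id]; rfl
      inv_mem' := by
        intro a ha
        show ∀ᶠ i in (U : Filter I), (δ i j).map (act i a⁻¹) = δ i j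
        filter_upwards [ha, hinv a] with i h1 h2
        rw [h2]
        conv_lhs => rw [← h1]
        rw [Option.map_map]
        have : (⇑(act i a)⁻¹ ∘ ⇑(act i a)) = id := by
          funext x; simp
        rw [this, Option.map_id]; rfl }
  have hStmem : ∀ j y, y ∈ St j ↔ ∀ᶠ i in (U : Filter I), (δ i j).map (act i y) = δ i j :=
    fun j y => Iff.rfl
  -- there is y moving Δ away from itself
  have hmain : ∃ y : G, ∀ᶠ i in (U : Filter I), ∀ x ∈ Δ i, act i y x ∉ Δ i := by
    by_contra hno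
    replace hno : ∀ y : G, ¬ ∀ᶠ i in (U : Filter I), ∀ x ∈ Δ i, act i y x ∉ Δ i :=
      fun y hy => hno ⟨y, hy⟩
    have hcov : ∀ y : G, ∃ j j' : Fin D, y ∈ Cs j j' := by
      intro y
      have h2 : ∀ᶠ i in (U : Filter I), ¬ ∀ x ∈ Δ i, act i y x ∉ Δ i :=
        Ultrafilter.eventually_not.2 (hno y)
      have h3 : ∀ᶠ i in (U : Filter I), ∃ p : Fin D × Fin D,
          (δ i p.1).map (act i y) = δ i p.2 := by
        filter_upwards [h2, hΔc, hΔne] with i h hc hne
        push Not at h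
        obtain ⟨x, hx, hxy⟩ := h
        obtain ⟨j, hj⟩ := (hδ i hc hne).2 x hx
        obtain ⟨j', hj'⟩ := (hδ i hc hne).2 _ hxy
        exact ⟨(j, j'), by rw [hj, hj']; rfl⟩
      obtain ⟨p, hp⟩ := (Ultrafilter.eventually_exists_iff).1 h3
      exact ⟨p.1, p.2, hp⟩
    -- cosets
    have hrep : ∀ p : Fin D × Fin D, ∃ g : G, ∀ y ∈ Cs p.1 p.2, g⁻¹ * y ∈ St p.1 := by
      intro p
      by_cases hne : (Cs p.1 p.2).Nonempty
      · obtain ⟨g, hg⟩ := hne
        refine ⟨g, fun y hy => ?_⟩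
        rw [hStmem]
        filter_upwards [hg, hy, hmul g⁻¹ y, hinv g] with i h1 h2 h3 h4
        rw [h3, h4]
        have h5 : (δ i p.1).map (⇑((act i g)⁻¹ * act i y)) =
            ((δ i p.1).map (act i y)).map (⇑(act i g)⁻¹) := by
          rw [Option.map_map]; rfl
        rw [h5, h2, ← h1, Option.map_map]
        have : (⇑(act i g)⁻¹ ∘ ⇑(act i g)) = id := by
          funext x; simp
        rw [this, Option.map_id]; rfl
      · exact ⟨1, fun y hy => absurd ⟨y, hy⟩ hne⟩
    choose g hg using hrep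
    have hcov2 : ⋃ p ∈ (Finset.univ : Finset (Fin D × Fin D)),
        (g p) • ((St p.1 : Subgroup G) : Set G) = Set.univ := by
      rw [Set.eq_univ_iff_forall]
      intro y
      obtain ⟨j, j', hy⟩ := hcov y
      simp only [Finset.mem_univ, Set.iUnion_true, Set.mem_iUnion]
      refine ⟨(j, j'), ?_⟩
      rw [Set.mem_smul_set_iff_inv_smul_mem]
      exact hg (j, j') y hy
    obtain ⟨p, -, hp⟩ := Subgroup.exists_finiteIndex_of_leftCoset_cover hcov2
    have htop : St p.1 = ⊤ := hfi _ hp.index_ne_zero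
    -- contradiction
    have h4 : ∀ᶠ i in (U : Filter I), ∃ u : {u // u ∈ E},
        (δ i p.1).map (act i u) ≠ δ i p.1 := by
      filter_upwards [hΔc, hΔne] with i hc hne
      obtain ⟨x, hx, hxj⟩ := (hδ i hc hne).1 p.1
      obtain ⟨u, hu, hux⟩ := Finset.mem_biUnion.1 hx
      refine ⟨⟨u, hu⟩, ?_⟩
      rw [hxj]
      intro h
      have h' : act i u x = x := Option.some_injective _ h
      exact (Equiv.Perm.mem_support.1 hux) h'
    obtain ⟨u, hu⟩ := (Ultrafilter.eventually_exists_iff).1 h4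
    have h5 : (u : G) ∈ St p.1 := by rw [htop]; exact Subgroup.mem_top _
    rw [hStmem] at h5
    obtain ⟨i, hi1, hi2⟩ := (hu.and h5).exists
    exact hi1 hi2
  obtain ⟨y, hy⟩ := hmain
  refine ⟨y, fun u hu v hv => ?_⟩
  by_contra hne
  have hne' : (y * u * y⁻¹) * v * (y * u * y⁻¹)⁻¹ * v⁻¹ ≠ 1 := by
    intro h
    apply hne
    rw [mul_inv_eq_one, mul_inv_eq_iff_eq_mul] at h
    exact h
  have hev : ∀ᶠ i in (U : Filter I),
      act i ((y * u * y⁻¹) * v * (y * u * y⁻¹)⁻¹ * v⁻¹) = 1 := by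
    filter_upwards [hy, hmul ((y * u * y⁻¹) * v * (y * u * y⁻¹)⁻¹) v⁻¹,
      hmul ((y * u * y⁻¹) * v) (y * u * y⁻¹)⁻¹, hmul (y * u * y⁻¹) v, hinv v,
      hinv (y * u * y⁻¹), hmul (y * u) y⁻¹, hmul y u, hinv y] with i h0 h1 h2 h3 h4 h5 h6 h7 h8
    rw [h1, h2, h3, h4, h5]
    have hdis : Equiv.Perm.Disjoint (act i (y * u * y⁻¹)) (act i v) := by
      rw [h6, h7, h8]
      intro x
      by_cases hx : (act i v) x = x
      · exact Or.inr hx
      · left
        have hxΔ : x ∈ Δ i := Finset.mem_biUnion.2 ⟨v, hv, Equiv.Perm.mem_support.2 hx⟩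
        have h9 : (act i u) ((act i y)⁻¹ x) = (act i y)⁻¹ x := by
          by_contra hc
          have h10 : (act i y)⁻¹ x ∈ Δ i :=
            Finset.mem_biUnion.2 ⟨u, hu, Equiv.Perm.mem_support.2 hc⟩
          have h11 := h0 _ h10
          apply h11
          simpa using hxΔ
        simp only [Equiv.Perm.mul_apply]
        rw [h9]; simp
    rw [hdis.commute.eq]
    group
  obtain ⟨i, hi1, hi2⟩ := ((hinj _ hne').and hev).exists
  exact hi1 hi2

end Pool.Agent.H18.NSF2
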